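import Mathlib
import Pool.Agent.R120.SumDef
import Pool.Agent.Helper46.SC.Final

/-! Sum closed permutation classes with unboundedly many indecomposables have growth rate
at least `τ`, the positive root of `x ^ 3 - 3 x ^ 2 + 2 x - 1`. -/

namespace Pool.Agent.Results.MP_65ae80_co.Threshold

open Pool.Agent.R120 Pool.Agent.R120.Antichain Pool.Agent.R120.SumClass Filter Topology
open scoped ENNReal

/-- If `C` is a sum closed permutation class and the numbers of indecomposable members of length
`n` are unbounded, then the growth rate of `C` exists and is at least `τ`. -/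
theorem result :
    ∃ τ : ℝ, 0 < τ ∧ τ ^ 3 - 3 * τ ^ 2 + 2 * τ - 1 = 0 ∧
      (∀ x : ℝ, 0 < x → x ^ 3 - 3 * x ^ 2 + 2 * x - 1 = 0 → x = τ) ∧
      ∀ C : Set AllPerms, IsClass C → SumClosed C →
        (¬ ∃ B : ℕ, ∀ n : ℕ, level (ind C) n ≤ B) →
        ∃ g : ℝ≥0∞,
          Tendsto (fun n : ℕ => ((level C n : ℕ) : ℝ≥0∞) ^ ((1 : ℝ) / (n : ℝ))) atTop (𝓝 g) ∧
            ENNReal.ofReal τ ≤ g := by
  obtain ⟨τ, h1, h2, h3⟩ := Pool.Agent.Helper46.SC.Growth.exists_root
  have hτ0 : 0 < τ := by linarith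
  refine ⟨τ, hτ0, h3, ?_, ?_⟩
  · intro x hx h
    have hx2 := Pool.Agent.Helper46.SC.Growth.two_lt_of_root hx h
    have hτ2 := Pool.Agent.Helper46.SC.Growth.two_lt_of_root hτ0 h3
    rcases lt_trichotomy x τ with h4 | h4 | h4
    · have := Pool.Agent.Helper46.SC.Growth.poly_lt hx2 h4
      rw [h, h3] at this
      exact absurd this (lt_irrefl _)
    · exact h4
    · have := Pool.Agent.Helper46.SC.Growth.poly_lt hτ2 h4
      rw [h, h3] at this
      exact absurd this (lt_irrefl _)
  · intro C hC hS hub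
    exact Pool.Agent.Helper46.SC.threshold h1 h2 h3 hC hS hub

end Pool.Agent.Results.MP_65ae80_co.Threshold
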